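import Pool.Agent.H319R3.LittlewoodA

/-!
# The size of the log-periodic profile

The profile `Phi l` of the square wave in `log x` has size at least `exp (- π ^ 2 / (2 l)) / π`
somewhere on each period: its Fourier coefficient is a multiple of `Gamma (1 + i π / l)`.
-/

set_option autoImplicit false
open MeasureTheory Set Filter Topology Complex

namespace Pool.Agent.Y952.LZ

open Pool.Agent.H319R3.Littlewood

/-- lower bound for the gamma function on the line `Re s = 1` -/
theorem gamma_lower {w : ℝ} (hw : 1 ≤ w) :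
    Real.exp (-(Real.pi * w / 2)) ≤ ‖Complex.Gamma (1 + w * I)‖ := by
  have hπ := Real.pi_gt_three
  have hw0 : (w : ℂ) * I ≠ 0 := by
    simp only [ne_eq, mul_eq_zero, ofReal_eq_zero, I_ne_zero, or_false]
    linarith
  have h1 := Complex.Gamma_mul_Gamma_one_sub ((w : ℂ) * I)
  have h2 : Complex.Gamma (1 + w * I) = (w * I) * Complex.Gamma (w * I) := by
    rw [add_comm, Complex.Gamma_add_one _ hw0]
  have h3 : Complex.Gamma (1 - w * I) = (starRingEnd ℂ) (Complex.Gamma (1 + w * I)) := by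
    rw [← Complex.Gamma_conj]
    congr 1
    simp [sub_eq_add_neg]
  have h4 : Complex.sin (Real.pi * (w * I)) = (Real.sinh (Real.pi * w) : ℂ) * I := by
    rw [show (Real.pi : ℂ) * (w * I) = ((Real.pi * w : ℝ) : ℂ) * I by push_cast; ring,
      Complex.sin_mul_I]
    simp
  have h5 : Complex.Gamma (1 + w * I) * (starRingEnd ℂ) (Complex.Gamma (1 + w * I)) =
      ((Real.pi * w / Real.sinh (Real.pi * w) : ℝ) : ℂ) := by
    rw [← h3, h2, mul_assoc, h1, h4]
    push_cast
    have hI : I ≠ 0 := I_ne_zero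
    by_cases hs : (Complex.sinh (Real.pi * w)) = 0
    · rw [hs]; simp
    · field_simp
  rw [Complex.mul_conj] at h5
  have h6 : Complex.normSq (Complex.Gamma (1 + w * I)) =
      Real.pi * w / Real.sinh (Real.pi * w) := by exact_mod_cast h5
  rw [Complex.normSq_eq_norm_sq] at h6
  have hx : 0 < Real.pi * w := by positivity
  have hsinh : 0 < Real.sinh (Real.pi * w) := Real.sinh_pos_iff.2 hx
  have hsle : Real.sinh (Real.pi * w) ≤ Real.exp (Real.pi * w) := by
    rw [Real.sinh_eq]
    have := Real.exp_pos (-(Real.pi * w))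
    have := Real.exp_pos (Real.pi * w)
    linarith
  have h7 : Real.exp (-(Real.pi * w)) ≤ ‖Complex.Gamma (1 + w * I)‖ ^ 2 := by
    rw [h6, le_div_iff₀ hsinh, Real.exp_neg]
    rw [inv_mul_le_iff₀ (Real.exp_pos _)]
    have : 1 ≤ Real.pi * w := by nlinarith
    nlinarith [Real.exp_pos (Real.pi * w)]
  have h8 : Real.exp (-(Real.pi * w)) = Real.exp (-(Real.pi * w / 2)) ^ 2 := by
    rw [← Real.exp_nat_mul]; congr 1; push_cast; ring
  rw [h8] at h7
  exact le_of_sq_le_sq h7 (norm_nonneg _)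

/-- the profile as an integral against a fixed weight -/
theorem Phi_exp {l : ℝ} (u : ℝ) :
    Phi l (Real.exp u) = ∫ y in Ioi (0 : ℝ), hs l (y * Real.exp (-u)) * Real.exp (-y) := by
  unfold Phi
  have h1 := integral_comp_mul_left_Ioi' (fun y => hs l (y * Real.exp (-u)) * Real.exp (-y)) 0
    (Real.exp_pos u)
  rw [mul_zero] at h1
  rw [← h1, smul_eq_mul, ← integral_const_mul]
  apply setIntegral_congr_fun measurableSet_Ioi
  intro x _
  have h2 : Real.exp u * x * Real.exp (-u) = x := by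
    rw [mul_comm, ← mul_assoc, ← Real.exp_add]; simp
  simp only
  rw [h2]
  ring

theorem hs_exp_add {l : ℝ} (hl : 0 < l) (v : ℝ) : hs l (Real.exp (v + l)) = - hs l (Real.exp v) := by
  rw [add_comm, Real.exp_add, hs_scale hl (Real.exp_pos v)]

theorem hs_exp_one {l v : ℝ} (hl : 0 < l) (h0 : 0 ≤ v) (h1 : v < l) : hs l (Real.exp v) = 1 := by
  unfold hs lev
  rw [Real.log_exp, if_pos]
  have : ⌊v / l⌋ = 0 := by
    rw [Int.floor_eq_zero_iff]
    exact ⟨by positivity, by rwa [div_lt_one hl]⟩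
  rw [this]
  exact Even.zero

/-- the weighted square wave -/
noncomputable def sw (l v : ℝ) : ℂ := (hs l (Real.exp v) : ℂ) * cexp (-((Real.pi / l * v : ℝ) * I))

theorem sw_int (l a b : ℝ) : IntervalIntegrable (sw l) volume a b := by
  have hm : Measurable (sw l) := by
    unfold sw
    exact (Complex.measurable_ofReal.comp ((hs_meas l).comp Real.measurable_exp)).mul (by fun_prop)
  refine (intervalIntegrable_const (c := (1 : ℝ))).mono_fun hm.aestronglyMeasurable ?_
  refine Eventually.of_forall fun v => ?_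
  unfold sw
  simp only
  rw [norm_mul, Complex.norm_real, Real.norm_eq_abs, hs_abs, one_mul, ← neg_mul, ← ofReal_neg,
    Complex.norm_exp_ofReal_mul_I]
  simp

theorem exp_pi_neg {l : ℝ} (hl : 0 < l) : cexp (-((Real.pi / l * l : ℝ) * I)) = -1 := by
  rw [div_mul_cancel₀ _ hl.ne', Complex.exp_neg, Complex.exp_pi_mul_I]
  norm_num

theorem sw_add {l : ℝ} (hl : 0 < l) (v : ℝ) : sw l (v + l) = sw l v := by
  unfold sw
  rw [hs_exp_add hl]
  have : cexp (-((Real.pi / l * (v + l) : ℝ) * I)) =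
      cexp (-((Real.pi / l * v : ℝ) * I)) * cexp (-((Real.pi / l * l : ℝ) * I)) := by
    rw [← Complex.exp_add]; congr 1; push_cast; ring
  rw [this, exp_pi_neg hl]
  push_cast
  ring

theorem sw_one {l : ℝ} (hl : 0 < l) : ∫ v in (0 : ℝ)..l, sw l v = 2 * l / (Real.pi * I) := by
  have hπ := Real.pi_pos
  have h1 : ∫ v in (0 : ℝ)..l, sw l v =
      ∫ v in (0 : ℝ)..l, cexp ((-((Real.pi / l : ℝ) * I)) * v) := by
    apply intervalIntegral.integral_congr_ae
    have hne : ∀ᵐ v : ℝ, v ≠ l := by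
      rw [ae_iff]
      simp
    filter_upwards [hne] with v hv hmem
    rw [uIoc_of_le hl.le] at hmem
    unfold sw
    rw [hs_exp_one hl hmem.1.le (lt_of_le_of_ne hmem.2 hv)]
    push_cast
    rw [one_mul]
    congr 1
    ring
  have hc : (-((Real.pi / l : ℝ) * I) : ℂ) ≠ 0 := by
    rw [neg_ne_zero]
    refine mul_ne_zero ?_ I_ne_zero
    rw [ofReal_ne_zero]
    positivity
  rw [h1, integral_exp_mul_complex hc]
  have h2 : cexp (-((Real.pi / l : ℝ) * I) * (l : ℝ)) = -1 := by
    rw [← exp_pi_neg hl]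
    congr 1
    push_cast
    ring
  rw [h2]
  have hπc : (Real.pi : ℂ) ≠ 0 := by exact_mod_cast hπ.ne'
  have hlc : (l : ℂ) ≠ 0 := by exact_mod_cast hl.ne'
  have hI : I ≠ 0 := I_ne_zero
  push_cast
  rw [mul_zero, Complex.exp_zero]
  field_simp
  ring

theorem sw_two {l : ℝ} (hl : 0 < l) (s : ℝ) :
    ∫ v in s..(s + 2 * l), sw l v = 4 * l / (Real.pi * I) := by
  have hper : Function.Periodic (sw l) l := sw_add hl
  have h1 := hper.intervalIntegral_add_eq s 0
  have h2 := hper.intervalIntegral_add_eq (s + l) 0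
  rw [zero_add, sw_one hl] at h1 h2
  have h3 : ∫ v in s..(s + 2 * l), sw l v =
      (∫ v in s..(s + l), sw l v) + ∫ v in (s + l)..(s + l + l), sw l v := by
    rw [intervalIntegral.integral_add_adjacent_intervals (sw_int l _ _) (sw_int l _ _)]
    congr 1
    ring
  rw [h3, h1, h2]
  ring

/-- the inner integral -/
theorem inner_int {l : ℝ} (hl : 0 < l) {y : ℝ} (hy : 0 < y) :
    ∫ u in (0 : ℝ)..(2 * l), (hs l (y * Real.exp (-u)) : ℂ) * cexp ((Real.pi / l * u : ℝ) * I) =
      4 * l / (Real.pi * I) * (y : ℂ) ^ (((Real.pi / l : ℝ) : ℂ) * I) := by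
  have h1 : ∀ u : ℝ, (hs l (y * Real.exp (-u)) : ℂ) * cexp ((Real.pi / l * u : ℝ) * I) =
      cexp ((Real.pi / l * Real.log y : ℝ) * I) * sw l (Real.log y - u) := by
    intro u
    unfold sw
    have e1 : y * Real.exp (-u) = Real.exp (Real.log y - u) := by
      rw [sub_eq_add_neg, Real.exp_add, Real.exp_log hy]
    have e2 : cexp ((Real.pi / l * Real.log y : ℝ) * I) *
        cexp (-((Real.pi / l * (Real.log y - u) : ℝ) * I)) = cexp ((Real.pi / l * u : ℝ) * I) := by
      rw [← Complex.exp_add]; congr 1; push_cast; ring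
    rw [e1, ← e2]
    ring
  simp only [h1]
  rw [intervalIntegral.integral_const_mul, intervalIntegral.integral_comp_sub_left (fun v => sw l v)]
  have h2 := sw_two hl (Real.log y - 2 * l)
  rw [sub_add_cancel] at h2
  rw [sub_zero, h2]
  have h3 : (y : ℂ) ^ (((Real.pi / l : ℝ) : ℂ) * I) = cexp ((Real.pi / l * Real.log y : ℝ) * I) := by
    rw [Complex.cpow_def_of_ne_zero (by exact_mod_cast hy.ne'), ← Complex.ofReal_log hy.le]
    congr 1
    push_cast
    ring
  rw [h3]
  ring

/-- the Fourier coefficient of the profile -/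
theorem coeff {l : ℝ} (hl : 0 < l) :
    ∫ u in (0 : ℝ)..(2 * l), (Phi l (Real.exp u) : ℂ) * cexp ((Real.pi / l * u : ℝ) * I) =
      4 * l / (Real.pi * I) * Complex.Gamma (1 + (Real.pi / l : ℝ) * I) := by
  have h2l : (0 : ℝ) ≤ 2 * l := by positivity
  have hexp : IntegrableOn (fun y : ℝ => Real.exp (-y)) (Ioi 0) := by
    have := exp_int one_pos 0
    simpa using this
  have h1 : ∀ u : ℝ, (Phi l (Real.exp u) : ℂ) * cexp ((Real.pi / l * u : ℝ) * I) =
      ∫ y in Ioi (0 : ℝ), (hs l (y * Real.exp (-u)) : ℂ) * cexp ((Real.pi / l * u : ℝ) * I) *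
        (Real.exp (-y) : ℂ) := by
    intro u
    rw [Phi_exp, ← integral_complex_ofReal, ← integral_mul_const]
    refine integral_congr_ae (Eventually.of_forall fun y => ?_)
    simp only
    push_cast
    ring
  simp only [h1]
  rw [intervalIntegral.integral_of_le h2l]
  rw [integral_integral_swap]
  · have h3 : ∀ y ∈ Ioi (0 : ℝ), ∫ u in Ioc (0 : ℝ) (2 * l), (hs l (y * Real.exp (-u)) : ℂ) *
        cexp ((Real.pi / l * u : ℝ) * I) * (Real.exp (-y) : ℂ) =
        4 * l / (Real.pi * I) * ((Real.exp (-y) : ℂ) *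
          (y : ℂ) ^ ((1 + (Real.pi / l : ℝ) * I : ℂ) - 1)) := by
      intro y hy
      rw [integral_mul_const, ← intervalIntegral.integral_of_le h2l, inner_int hl hy,
        add_sub_cancel_left]
      ring
    rw [setIntegral_congr_fun measurableSet_Ioi h3, integral_const_mul,
      Complex.Gamma_eq_integral (by simp)]
    rfl
  · have hfin : IsFiniteMeasure (volume.restrict (Ioc (0 : ℝ) (2 * l))) :=
      ⟨by rw [Measure.restrict_apply_univ, Real.volume_Ioc]; exact ENNReal.ofReal_lt_top⟩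
    have hb : Integrable (fun p : ℝ × ℝ => Real.exp (-p.2))
        ((volume.restrict (Ioc (0 : ℝ) (2 * l))).prod (volume.restrict (Ioi (0 : ℝ)))) :=
      Integrable.comp_snd hexp _
    refine hb.mono' ?_ ?_
    · refine Measurable.aestronglyMeasurable ?_
      have m1 : Measurable fun p : ℝ × ℝ => (hs l (p.2 * Real.exp (-p.1)) : ℂ) :=
        Complex.measurable_ofReal.comp ((hs_meas l).comp (by fun_prop))
      exact (m1.mul (by fun_prop)).mul (by fun_prop)
    · refine Eventually.of_forall fun p => ?_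
      simp only [Function.uncurry]
      rw [norm_mul, norm_mul, Complex.norm_real, Real.norm_eq_abs, hs_abs, one_mul,
        Complex.norm_exp_ofReal_mul_I, one_mul, Complex.norm_real, Real.norm_of_nonneg
        (Real.exp_pos _).le]

/-- **the size of the profile** -/
theorem amp {l : ℝ} (hl : 0 < l) (hl1 : l ≤ Real.pi) : ∃ u : ℝ, 0 ≤ u ∧ u ≤ 2 * l ∧
    Real.exp (-(Real.pi ^ 2 / (2 * l))) / Real.pi ≤ |Phi l (Real.exp u)| := by
  by_contra hcon
  push Not at hcon
  have hπ := Real.pi_pos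
  have hc := coeff hl
  have h1 : ‖∫ u in (0 : ℝ)..(2 * l), (Phi l (Real.exp u) : ℂ) * cexp ((Real.pi / l * u : ℝ) * I)‖ ≤
      Real.exp (-(Real.pi ^ 2 / (2 * l))) / Real.pi * |2 * l - 0| := by
    apply intervalIntegral.norm_integral_le_of_norm_le_const
    intro u hu
    rw [uIoc_of_le (by positivity)] at hu
    rw [norm_mul, Complex.norm_exp_ofReal_mul_I, mul_one, Complex.norm_real, Real.norm_eq_abs]
    exact (hcon u hu.1.le hu.2).le
  rw [hc, norm_mul] at h1
  have h2 : ‖(4 * l / (Real.pi * I) : ℂ)‖ = 4 * l / Real.pi := by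
    rw [norm_div, norm_mul, norm_mul, Complex.norm_I, mul_one, Complex.norm_real, Complex.norm_real,
      Real.norm_of_nonneg hl.le, Real.norm_of_nonneg hπ.le]
    norm_num
  have h3 := gamma_lower (w := Real.pi / l) (by rwa [le_div_iff₀ hl, one_mul])
  have h4 : Real.pi * (Real.pi / l) / 2 = Real.pi ^ 2 / (2 * l) := by field_simp
  rw [h4] at h3
  rw [h2, sub_zero, abs_of_nonneg (by positivity)] at h1
  have h5 : 4 * l / Real.pi * Real.exp (-(Real.pi ^ 2 / (2 * l))) ≤
      Real.exp (-(Real.pi ^ 2 / (2 * l))) / Real.pi * (2 * l) := by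
    refine le_trans ?_ h1
    exact mul_le_mul_of_nonneg_left h3 (by positivity)
  have h6 : 0 < l / Real.pi * Real.exp (-(Real.pi ^ 2 / (2 * l))) := by positivity
  have h7 : Real.exp (-(Real.pi ^ 2 / (2 * l))) / Real.pi * (2 * l) =
      2 * (l / Real.pi * Real.exp (-(Real.pi ^ 2 / (2 * l)))) := by ring
  have h8 : 4 * l / Real.pi * Real.exp (-(Real.pi ^ 2 / (2 * l))) =
      4 * (l / Real.pi * Real.exp (-(Real.pi ^ 2 / (2 * l)))) := by ring
  rw [h7, h8] at h5
  linarith

end Pool.Agent.Y952.LZ
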