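import Pool.Agent.H319R3.LittlewoodB
import Pool.Agent.Y952.LZ.Amp

/-!
# Littlewood polynomials of degree `n` with `c log ^ 2 n` zeros in `(0, 1)`, `c < 1 / (2 π ^ 2)`
-/

set_option autoImplicit false
open MeasureTheory Set Filter Topology Polynomial

namespace Pool.Agent.Y952.LZ

open Pool.Agent.H319R3.Littlewood

/-- the sign of the polynomial -/
theorem sign_gen {l : ℝ} (hl : 0 < l) {t0 : ℝ} (ht0 : 0 < t0) {n : ℕ} {T0 T1 : ℝ}
    (hE : T1 * (3 + 2 * (Real.log ((n:ℝ) + 1) / l)) + Real.exp (-(T0 * ((n:ℝ) + 1))) <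
      |Phi l t0|) (k : ℕ)
    (hk1 : T0 ≤ t0 * Real.exp (-(l * k))) (hk2 : t0 * Real.exp (-(l * k)) ≤ T1) :
    0 < (-1) ^ k * Phi l t0 * (lp l n).eval (Real.exp (-(t0 * Real.exp (-(l * k))))) := by
  set t := t0 * Real.exp (-(l * k)) with ht
  have htpos : 0 < t := by positivity
  have hN : (0:ℝ) < (n:ℝ) + 1 := by positivity
  have hN1 : (1:ℝ) ≤ (n:ℝ) + 1 := by
    have : (0:ℝ) ≤ n := Nat.cast_nonneg n
    linarith
  have hd := disc hl htpos (n + 1) (by omega)
  push_cast at hd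
  have hlog : 0 ≤ Real.log ((n:ℝ) + 1) := Real.log_nonneg hN1
  have hb1 : t * (3 + 2 * (Real.log ((n:ℝ) + 1) / l)) ≤
      T1 * (3 + 2 * (Real.log ((n:ℝ) + 1) / l)) := by
    gcongr
  have hb2 : Real.exp (-(t * ((n:ℝ) + 1))) ≤ Real.exp (-(T0 * ((n:ℝ) + 1))) := by
    apply Real.exp_le_exp.2
    apply neg_le_neg
    gcongr
  have herr := lt_of_le_of_lt (hd.trans (add_le_add hb1 hb2)) hE
  rw [← lp_eval] at herr
  have hPhi : Phi l t = (-1) ^ k * Phi l t0 := Phi_iter hl t0 k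
  have habs : |Phi l t| = |Phi l t0| := by
    rw [hPhi, abs_mul, abs_pow, abs_neg, abs_one, one_pow, one_mul]
  rw [← habs] at herr
  rw [← hPhi]
  have key : ∀ y φ : ℝ, |y - φ| < |φ| → 0 < φ * y := by
    intro y φ h
    rcases lt_trichotomy φ 0 with h0 | h0 | h0
    · rw [abs_of_neg h0, abs_lt] at h
      nlinarith
    · subst h0; simp at h; exact absurd h (not_lt.2 (abs_nonneg y))
    · rw [abs_of_pos h0, abs_lt] at h
      nlinarith
  have h1 := key _ _ herr
  have h2 : 0 < t * Real.exp (-t) := by positivity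
  have h3 : 0 < (t * Real.exp (-t)) * (Phi l t * (lp l n).eval (Real.exp (-t))) := by
    calc 0 < Phi l t * (t * (Real.exp (-t) * (lp l n).eval (Real.exp (-t)))) := h1
      _ = _ := by ring
  exact (pos_iff_pos_of_mul_pos h3).1 h2

/-- the error is small -/
theorem err_small {e : ℝ} (he : 0 < e) : ∀ᶠ L : ℝ in atTop,
    Real.exp (-((1 / 2 + e) * L)) * (3 + 2 * (L / (Real.pi ^ 2 / L))) +
      Real.exp (-Real.exp (e * L)) < Real.exp (-(L / 2)) / Real.pi := by
  have hπ := Real.pi_pos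
  -- first part: `exp (-e L) (3 + 2 L^2 / π^2) → 0`
  have h1 : Tendsto (fun L : ℝ => Real.exp (-(e * L)) * (3 + 2 * (L ^ 2 / Real.pi ^ 2))) atTop
      (𝓝 0) := by
    have a1 : Tendsto (fun L : ℝ => L ^ 0 * Real.exp (-(e * L))) atTop (𝓝 0) := by
      have := Real.tendsto_pow_mul_exp_neg_atTop_nhds_zero 0
      have h2 : Tendsto (fun L : ℝ => e * L) atTop atTop := tendsto_id.const_mul_atTop he
      have h3 := this.comp h2
      refine h3.congr fun L => ?_
      simp
    have a2 : Tendsto (fun L : ℝ => L ^ 2 * Real.exp (-(e * L))) atTop (𝓝 0) := by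
      have := Real.tendsto_pow_mul_exp_neg_atTop_nhds_zero 2
      have h2 : Tendsto (fun L : ℝ => e * L) atTop atTop := tendsto_id.const_mul_atTop he
      have h3 := (this.comp h2).const_mul (1 / e ^ 2)
      rw [mul_zero] at h3
      refine h3.congr fun L => ?_
      simp only [Function.comp]
      field_simp
    have a3 := (a1.const_mul 3).add (a2.const_mul (2 / Real.pi ^ 2))
    rw [mul_zero, mul_zero, add_zero] at a3
    refine a3.congr fun L => ?_
    ring
  -- second part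
  have h2 : Tendsto (fun L : ℝ => Real.exp (L / 2 - Real.exp (e * L))) atTop (𝓝 0) := by
    apply Real.tendsto_exp_atBot.comp
    have b1 : Tendsto (fun L : ℝ => Real.exp (e * L) / (e * L) ^ 1) atTop atTop :=
      (Real.tendsto_exp_div_pow_atTop 1).comp (tendsto_id.const_mul_atTop he)
    have b2 : ∀ᶠ L : ℝ in atTop, L / 2 - Real.exp (e * L) ≤ -L := by
      filter_upwards [b1.eventually_ge_atTop (2 / e), eventually_gt_atTop 0] with L hL hL0
      rw [pow_one, le_div_iff₀ (by positivity)] at hL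
      have : 2 / e * (e * L) = 2 * L := by field_simp
      rw [this] at hL
      linarith
    exact tendsto_atBot_mono' _ b2 tendsto_neg_atTop_atBot
  have h3 : 0 < 1 / (2 * Real.pi) := by positivity
  filter_upwards [h1.eventually_lt_const h3, h2.eventually_lt_const h3, eventually_gt_atTop 0]
    with L k1 k2 hL
  have e1 : Real.exp (-((1 / 2 + e) * L)) = Real.exp (-(L / 2)) * Real.exp (-(e * L)) := by
    rw [← Real.exp_add]; congr 1; ring
  have e2 : Real.exp (-Real.exp (e * L)) =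
      Real.exp (-(L / 2)) * Real.exp (L / 2 - Real.exp (e * L)) := by
    rw [← Real.exp_add]; congr 1; ring
  have e3 : L / (Real.pi ^ 2 / L) = L ^ 2 / Real.pi ^ 2 := by field_simp
  rw [e1, e2, e3]
  have hp : 0 < Real.exp (-(L / 2)) := Real.exp_pos _
  calc Real.exp (-(L / 2)) * Real.exp (-(e * L)) * (3 + 2 * (L ^ 2 / Real.pi ^ 2)) +
        Real.exp (-(L / 2)) * Real.exp (L / 2 - Real.exp (e * L))
      = Real.exp (-(L / 2)) * (Real.exp (-(e * L)) * (3 + 2 * (L ^ 2 / Real.pi ^ 2)) +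
        Real.exp (L / 2 - Real.exp (e * L))) := by ring
    _ < Real.exp (-(L / 2)) * (1 / (2 * Real.pi) + 1 / (2 * Real.pi)) :=
        mul_lt_mul_of_pos_left (add_lt_add k1 k2) hp
    _ = _ := by field_simp; ring

theorem main {c : ℝ} (hc : 0 < c) (hc1 : c < 1 / (2 * Real.pi ^ 2)) : ∀ᶠ n : ℕ in atTop,
    ∃ l : ℝ, c * Real.log n ^ 2 <
      (((lp l n).roots.toFinset.filter (fun x => 0 < x ∧ x < 1)).card : ℝ) := by
  have hπ := Real.pi_pos
  have hcπ : c * Real.pi ^ 2 < 1 / 2 := by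
    rw [lt_div_iff₀ (by positivity)] at hc1
    linarith
  obtain ⟨e, he⟩ : ∃ e : ℝ, e = (1 / 2 - c * Real.pi ^ 2) / 4 := ⟨_, rfl⟩
  have he0 : 0 < e := by rw [he]; linarith
  have he1 : e ≤ 1 / 8 := by
    rw [he]
    have : 0 < c * Real.pi ^ 2 := by positivity
    linarith
  have hcast : Tendsto (fun n : ℕ => (n:ℝ) + 1) atTop atTop :=
    tendsto_atTop_add_const_right _ _ tendsto_natCast_atTop_atTop
  have hlogt : Tendsto (fun n : ℕ => Real.log ((n:ℝ) + 1)) atTop atTop :=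
    Real.tendsto_log_atTop.comp hcast
  have hsq : Tendsto (fun n : ℕ => Real.log ((n:ℝ) + 1) ^ 2) atTop atTop :=
    (tendsto_pow_atTop (two_ne_zero)).comp hlogt
  have e1 := hlogt.eventually (err_small he0)
  have e2 := hlogt.eventually_ge_atTop Real.pi
  have e3 := hsq.eventually_gt_atTop (2 / ((1 / 2 - 2 * e) / Real.pi ^ 2 - c))
  have hgap : 0 < (1 / 2 - 2 * e) / Real.pi ^ 2 - c := by
    rw [sub_pos, lt_div_iff₀ (by positivity), he]
    linarith
  filter_upwards [e1, e2, e3, eventually_ge_atTop 1] with n h1 h2 h3 hn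
  set L := Real.log ((n:ℝ) + 1) with hL
  have hN : (0:ℝ) < (n:ℝ) + 1 := by positivity
  have hL0 : 0 < L := by linarith
  obtain ⟨l, hldef⟩ : ∃ l : ℝ, l = Real.pi ^ 2 / L := ⟨_, rfl⟩
  have hl : 0 < l := by rw [hldef]; positivity
  have hl1 : l ≤ Real.pi := by
    rw [hldef, div_le_iff₀ hL0]
    nlinarith
  obtain ⟨u0, hu0, hu1, hamp⟩ := amp hl hl1
  have hamp' : Real.exp (-(L / 2)) / Real.pi ≤ |Phi l (Real.exp u0)| := by
    refine le_trans (le_of_eq ?_) hamp
    congr 3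
    rw [hldef]
    field_simp
  refine ⟨l, ?_⟩
  set A := (u0 + (1 / 2 + e) * L) / l with hA
  have hA0 : 0 ≤ A := by
    apply div_nonneg _ hl.le
    positivity
  set k0 := ⌈A⌉₊ with hk0
  set M := ⌊(1 / 2 - 2 * e) * L / l - 1⌋₊ with hM
  have hk0a : A ≤ k0 := Nat.le_ceil A
  have hk0b : (k0:ℝ) < A + 1 := Nat.ceil_lt_add_one hA0
  have hLl : (1 / 2 - 2 * e) * L / l = (1 / 2 - 2 * e) / Real.pi ^ 2 * L ^ 2 := by
    rw [hldef]; field_simp
  have hbig : c * L ^ 2 + 2 < (1 / 2 - 2 * e) / Real.pi ^ 2 * L ^ 2 := by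
    rw [div_lt_iff₀ hgap] at h3
    linarith
  have hcL : 0 ≤ c * L ^ 2 := by positivity
  have hLl0 : 0 ≤ (1 / 2 - 2 * e) * L / l - 1 := by rw [hLl]; linarith
  have hMa : (M:ℝ) ≤ (1 / 2 - 2 * e) * L / l - 1 := Nat.floor_le hLl0
  have hMb : (1 / 2 - 2 * e) * L / l - 1 < (M:ℝ) + 1 := Nat.lt_floor_add_one _
  have hexpL : (n:ℝ) + 1 = Real.exp L := (Real.exp_log hN).symm
  have hAl : A * l = u0 + (1 / 2 + e) * L := by
    rw [hA]; field_simp
  have hBl : ((1 / 2 - 2 * e) * L / l) * l = (1 / 2 - 2 * e) * L := by field_simp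
  have hS : ∀ i ≤ M, 0 < (-1) ^ (k0 + i) * Phi l (Real.exp u0) *
      (lp l n).eval (Real.exp (-(Real.exp u0 * Real.exp (-(l * ((k0 + i : ℕ) : ℝ)))))) := by
    intro i hi
    have hi' : (i:ℝ) ≤ M := by exact_mod_cast hi
    have hi0 : (0:ℝ) ≤ i := Nat.cast_nonneg i
    refine sign_gen hl (Real.exp_pos u0) (T0 := Real.exp (-((1 - e) * L)))
      (T1 := Real.exp (-((1 / 2 + e) * L))) ?_ (k0 + i) ?_ ?_
    · refine lt_of_lt_of_le ?_ hamp'
      have e5 : Real.exp (-((1 - e) * L)) * ((n:ℝ) + 1) = Real.exp (e * L) := by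
        rw [hexpL, ← Real.exp_add]; congr 1; ring
      rw [e5, ← hL, hldef]
      exact h1
    · rw [← Real.exp_add]
      apply Real.exp_le_exp.2
      push_cast
      nlinarith
    · rw [← Real.exp_add]
      apply Real.exp_le_exp.2
      push_cast
      nlinarith
  have hz := zeros hl (Real.exp_pos u0) hS
  have hz' : (M:ℝ) ≤ (((lp l n).roots.toFinset.filter (fun x => 0 < x ∧ x < 1)).card : ℝ) := by
    exact_mod_cast hz
  refine lt_of_lt_of_le ?_ hz'
  have hn1 : (1:ℝ) ≤ n := by exact_mod_cast hn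
  have hnle : Real.log n ≤ L := Real.log_le_log (by linarith) (by linarith)
  have hlog0 : 0 ≤ Real.log n := Real.log_nonneg hn1
  have h7 : c * Real.log n ^ 2 ≤ c * L ^ 2 := by gcongr
  rw [hLl] at hMb
  linarith

/-- all degrees -/
theorem all_deg {n : ℕ} (hn : 2 ≤ n) : ∃ p : ℝ[X], p.natDegree = n ∧
    (∀ j ≤ n, p.coeff j = 1 ∨ p.coeff j = -1) ∧
    1 ≤ (p.roots.toFinset.filter (fun x => 0 < x ∧ x < 1)).card := by
  obtain ⟨p, hp⟩ : ∃ p : ℝ[X], p = ∑ j ∈ Finset.range (n + 1),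
      C (if j = 0 then (1 : ℝ) else -1) * X ^ j := ⟨_, rfl⟩
  have hco : ∀ j, p.coeff j = if j ≤ n then (if j = 0 then (1 : ℝ) else -1) else 0 := by
    intro j
    rw [hp, finsetSum_coeff]
    simp only [coeff_C_mul, coeff_X_pow, mul_ite, mul_one, mul_zero]
    rw [Finset.sum_ite_eq]
    simp only [Finset.mem_range, Nat.lt_succ_iff]
  have hdeg : p.natDegree = n := by
    apply natDegree_eq_of_le_of_coeff_ne_zero
    · rw [natDegree_le_iff_coeff_eq_zero]
      intro N hN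
      rw [hco, if_neg (by omega)]
    · rw [hco, if_pos le_rfl]
      split_ifs <;> norm_num
  refine ⟨p, hdeg, ?_, ?_⟩
  · intro j hj
    rw [hco, if_pos hj]
    split_ifs
    · exact Or.inl rfl
    · exact Or.inr rfl
  · have h0 : p.eval 0 = 1 := by
      rw [← coeff_zero_eq_eval_zero, hco]
      simp
    have h1 : p.eval 1 < 0 := by
      rw [hp, eval_finsetSum, Finset.sum_range_succ']
      have hn2 : (2:ℝ) ≤ n := by exact_mod_cast hn
      simp
      linarith
    have hcont : ContinuousOn (fun x => p.eval x) (Icc (0:ℝ) 1) := by fun_prop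
    have h2 := intermediate_value_Ioo' (zero_le_one' ℝ) hcont
    have h3 : (0:ℝ) ∈ Ioo (p.eval 1) (p.eval 0) := ⟨h1, by rw [h0]; norm_num⟩
    obtain ⟨r, hr, hr0⟩ := h2 h3
    rw [Finset.one_le_card]
    refine ⟨r, ?_⟩
    rw [Finset.mem_filter, Multiset.mem_toFinset, mem_roots']
    refine ⟨⟨?_, hr0⟩, hr.1, hr.2⟩
    intro hp0
    rw [hp0] at h0
    simp at h0

end Pool.Agent.Y952.LZ
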